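import Pool.Agent.Y753.SH.Stm

set_option autoImplicit false
set_option linter.all false

/-!
# The change of weight (project SH, `S_STAR`)
-/

namespace Pool.Agent.Y971.SH

open Finset Filter MeasureTheory MonoidAlgebra Topology
open Pool.Agent.Y755
open Pool.Agent.W184.NZ
open Pool.Agent.Y753.NL
open Pool.Agent.Y753.SH
open Pool.Agent.H306R2 (lc dv)

/-! ## Part A: series -/

/-- a term of the series is at least the difference of the primitive -/
lemma term_low {σ : ℝ} (hσ : 0 < σ) {n : ℕ} (hn : 1 ≤ n) :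
    ((n:ℝ) ^ (-σ) - ((n + 1 : ℕ) : ℝ) ^ (-σ)) / σ ≤ (n:ℝ) ^ (-1 - σ) := by
  have hn0 : (0:ℝ) < n := by exact_mod_cast hn
  have e1 : (n:ℝ) ^ (-1 - σ) = (n:ℝ) ^ (-σ) * (1 / n) := by
    rw [show -1 - σ = -σ + -1 by ring, Real.rpow_add hn0, Real.rpow_neg_one, one_div]
  have e2 : ((n + 1 : ℕ) : ℝ) ^ (-σ) = (n:ℝ) ^ (-σ) * (1 + 1 / (n:ℝ)) ^ (-σ) := by
    rw [← Real.mul_rpow hn0.le (by positivity)]
    congr 1
    push_cast
    field_simp
  have h1 : 1 - σ * (1 / n) ≤ (1 + 1 / (n:ℝ)) ^ (-σ) := by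
    rw [Real.rpow_def_of_pos (by positivity)]
    have h2 := Real.add_one_le_exp (Real.log (1 + 1 / (n:ℝ)) * -σ)
    have h3 : Real.log (1 + 1 / (n:ℝ)) ≤ 1 / n := by
      have := Real.log_le_sub_one_of_pos (show (0:ℝ) < 1 + 1 / (n:ℝ) by positivity)
      linarith
    nlinarith
  rw [e1, e2, div_le_iff₀ hσ]
  have h4 : (0:ℝ) ≤ (n:ℝ) ^ (-σ) := by positivity
  nlinarith

/-- a term of the series is at most the previous difference of the primitive -/
lemma term_up {σ : ℝ} (hσ : 0 < σ) {n : ℕ} (hn : 1 ≤ n) :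
    ((n + 1 : ℕ):ℝ) ^ (-1 - σ) ≤ ((n:ℝ) ^ (-σ) - ((n + 1 : ℕ) : ℝ) ^ (-σ)) / σ := by
  have hn0 : (0:ℝ) < n := by exact_mod_cast hn
  obtain ⟨m, hm⟩ : ∃ m : ℝ, m = ((n + 1 : ℕ) : ℝ) := ⟨_, rfl⟩
  have hm1 : m = n + 1 := by rw [hm]; push_cast; ring
  rw [← hm]
  have hm0 : 0 < m := by rw [hm1]; positivity
  have e1 : m ^ (-1 - σ) = m ^ (-σ) * (1 / m) := by
    rw [show -1 - σ = -σ + -1 by ring, Real.rpow_add hm0, Real.rpow_neg_one, one_div]
  have hq : 0 < 1 - 1 / m := by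
    rw [sub_pos, div_lt_one hm0, hm1]
    linarith
  have e2 : (n:ℝ) ^ (-σ) = m ^ (-σ) * (1 - 1 / m) ^ (-σ) := by
    rw [← Real.mul_rpow hm0.le hq.le]
    congr 1
    rw [mul_sub, mul_one, mul_one_div_cancel hm0.ne', hm1]
    ring
  have h1 : 1 + σ * (1 / m) ≤ (1 - 1 / m) ^ (-σ) := by
    rw [Real.rpow_def_of_pos hq]
    have h2 := Real.add_one_le_exp (Real.log (1 - 1 / m) * -σ)
    have h3 : Real.log (1 - 1 / m) ≤ -(1 / m) := by
      have := Real.log_le_sub_one_of_pos hq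
      linarith
    nlinarith
  rw [e1, e2, le_div_iff₀ hσ]
  have h4 : (0:ℝ) ≤ m ^ (-σ) := by positivity
  nlinarith

lemma zsum_summable {σ : ℝ} (hσ : 0 < σ) : Summable (fun n : ℕ => (n:ℝ) ^ (-1 - σ)) := by
  rw [Real.summable_nat_rpow]
  linarith

lemma zsum_up {σ : ℝ} (hσ : 0 < σ) : ∑' n : ℕ, (n:ℝ) ^ (-1 - σ) ≤ 1 + 1 / σ := by
  have hs := zsum_summable hσ
  have key : ∀ N : ℕ, ∑ n ∈ range (N + 2), (n:ℝ) ^ (-1 - σ) ≤ 1 + (1 - ((N + 1 : ℕ) : ℝ) ^ (-σ)) / σ := by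
    intro N
    induction N with
    | zero =>
      rw [sum_range_succ, sum_range_one]
      have : (0:ℝ) ^ (-1 - σ) = 0 := Real.zero_rpow (by linarith)
      simp [this]
    | succ N ih =>
      rw [sum_range_succ]
      have h1 := term_up hσ (n := N + 1) (by omega)
      refine (add_le_add ih h1).trans (le_of_eq ?_)
      field_simp
      ring
  refine le_of_tendsto' (hs.hasSum.tendsto_sum_nat.comp (tendsto_add_atTop_nat 2)) fun N => ?_
  refine (key N).trans ?_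
  have h2 : (0:ℝ) ≤ ((N + 1 : ℕ) : ℝ) ^ (-σ) := by positivity
  have h3 : (1 - ((N + 1 : ℕ) : ℝ) ^ (-σ)) / σ ≤ 1 / σ := div_le_div_of_nonneg_right (by linarith) hσ.le
  linarith

lemma zsum_low {σ : ℝ} (hσ : 0 < σ) : 1 / σ ≤ ∑' n : ℕ, (n:ℝ) ^ (-1 - σ) := by
  have hs := zsum_summable hσ
  have key : ∀ N : ℕ, (1 - ((N + 1 : ℕ) : ℝ) ^ (-σ)) / σ ≤ ∑ n ∈ range (N + 1), (n:ℝ) ^ (-1 - σ) := by
    intro N
    induction N with
    | zero =>
      rw [sum_range_one]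
      have : (0:ℝ) ^ (-1 - σ) = 0 := Real.zero_rpow (by linarith)
      simp [this]
    | succ N ih =>
      rw [sum_range_succ]
      have h1 := term_low hσ (n := N + 1) (by omega)
      refine le_trans (le_of_eq ?_) (add_le_add ih h1)
      field_simp
      ring
  have hlim : Tendsto (fun N : ℕ => (1 - ((N + 1 : ℕ) : ℝ) ^ (-σ)) / σ) atTop (𝓝 ((1 - 0) / σ)) := by
    refine Tendsto.div_const (Tendsto.const_sub _ ?_) _
    exact ((tendsto_rpow_neg_atTop hσ).comp tendsto_natCast_atTop_atTop).comp (tendsto_add_atTop_nat 1)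
  rw [sub_zero] at hlim
  exact le_of_tendsto_of_tendsto' hlim (hs.hasSum.tendsto_sum_nat.comp (tendsto_add_atTop_nat 1)) key

lemma zsum_one {σ : ℝ} (hσ : 0 < σ) : 1 ≤ ∑' n : ℕ, (n:ℝ) ^ (-1 - σ) := by
  have h := (zsum_summable hσ).le_tsum 1 (fun n _ => by positivity)
  simpa using h

lemma zsum_ratio {δ H : ℝ} (hδ : 0 < δ) (hH : 0 ≤ H) :
    ∑' n : ℕ, (n:ℝ) ^ (-1 - 2 * δ) ≤ (2 + H / 2) * ∑' n : ℕ, (n:ℝ) ^ (-1 - 2 * ((1 + H / 2) * δ)) := by
  have h1 := zsum_up (σ := 2 * δ) (by positivity)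
  have h2 := zsum_low (σ := 2 * ((1 + H / 2) * δ)) (by positivity)
  have h3 := zsum_one (σ := 2 * ((1 + H / 2) * δ)) (by positivity)
  set Z := ∑' n : ℕ, (n:ℝ) ^ (-1 - 2 * ((1 + H / 2) * δ))
  have e : 1 / (2 * δ) = (1 + H / 2) * (1 / (2 * ((1 + H / 2) * δ))) := by
    field_simp
  rw [e] at h1
  have h4 : (1 + H / 2) * (1 / (2 * ((1 + H / 2) * δ))) ≤ (1 + H / 2) * Z :=
    mul_le_mul_of_nonneg_left h2 (by positivity)
  linarith

/-- an elementary inequality -/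
lemma min_exp {u : ℝ} (hu : 0 ≤ u) : min 1 u ≤ 2 * (1 - Real.exp (-u)) := by
  rcases le_or_gt u 1 with h | h
  · rw [min_eq_right h]
    have h2 : Real.exp (-u) ≤ 1 - u + u ^ 2 / 2 := by
      have h4 : 1 + u + u ^ 2 / 2 ≤ Real.exp u := Real.quadratic_le_exp_of_nonneg hu
      rw [Real.exp_neg, inv_le_comm₀ (Real.exp_pos _) (by nlinarith)]
      refine le_trans ?_ h4
      rw [inv_le_iff_one_le_mul₀ (by nlinarith)]
      nlinarith [pow_nonneg hu 3, pow_nonneg hu 4]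
    nlinarith
  · rw [min_eq_left h.le]
    have h1 : Real.exp (-u) ≤ Real.exp (-1) := Real.exp_le_exp.mpr (by linarith)
    have h2 : Real.exp (-1) ≤ 1 / 2 := by
      rw [Real.exp_neg, one_div]
      refine inv_anti₀ (by norm_num) ?_
      have := Real.add_one_le_exp (1:ℝ)
      linarith
    linarith

/-! ## Part B: algebra -/

lemma ip_le {δ : ℝ} {f g : P1} (h : Le f g) : ip δ f f ≤ ip δ g g := by
  classical
  rw [ip_eq δ f f (s := f.coeff.support ∪ g.coeff.support) subset_union_left,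
    ip_eq δ g g (s := f.coeff.support ∪ g.coeff.support) subset_union_right]
  refine sum_le_sum fun n _ => ?_
  refine mul_le_mul_of_nonneg_right ?_ (wδ_nonneg δ n)
  exact mul_le_mul (h n).2 (h n).2 (h n).1 ((h n).1.trans (h n).2)

lemma Le.subset {ι : Type*} {s t : Finset ι} (hst : s ⊆ t) {f : ι → P1} (h : ∀ i ∈ t, Le (f i) (f i)) :
    Le (∑ i ∈ s, f i) (∑ i ∈ t, f i) := by
  classical
  rw [← sum_sdiff hst, add_comm]
  have h1 : Le (∑ i ∈ s, f i + 0) (∑ i ∈ s, f i + ∑ i ∈ t \ s, f i) :=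
    (Le.sum fun i hi => h i (hst hi)).add (Le.zero (Le.sum fun i hi => h i (sdiff_subset hi)))
  rwa [add_zero] at h1

/-- the product of two truncated exponentials -/
lemma NK_mul_le (K : ℕ) {x y : P1} (hx : Le x x) (hy : Le y y) :
    Le (NK K 1 x * NK K 1 y) (NK (2 * K) 1 (x + y)) := by
  classical
  obtain ⟨t, ht⟩ : ∃ t : ℕ × ℕ → P1, ∀ q, t q =
      ((1:ℝ) ^ q.1 / (q.1.factorial : ℝ) * ((1:ℝ) ^ q.2 / (q.2.factorial : ℝ))) • (x ^ q.1 * y ^ q.2) :=
    ⟨_, fun _ => rfl⟩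
  have ht0 : ∀ q, Le (t q) (t q) := fun q => by
    rw [ht]
    exact ((hx.pow _).mul (hy.pow _)).smul (by positivity)
  have e1 : NK K 1 x * NK K 1 y = ∑ q ∈ range (K + 1) ×ˢ range (K + 1), t q := by
    unfold NK
    rw [sum_mul_sum, ← sum_product']
    refine sum_congr rfl fun q _ => ?_
    rw [ht, smul_mul_smul_comm]
  have e2 : NK (2 * K) 1 (x + y) =
      ∑ q ∈ (range (2 * K + 1) ×ˢ range (2 * K + 1)).filter (fun q => q.1 + q.2 ≤ 2 * K), t q := by
    rw [← sum_fiberwise_of_maps_to (g := fun q : ℕ × ℕ => q.1 + q.2) (t := range (2 * K + 1)) (fun q hq => by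
      rw [mem_filter] at hq
      rw [mem_range]; omega)]
    unfold NK
    refine sum_congr rfl fun m hm => ?_
    rw [mem_range] at hm
    have e3 : ((range (2 * K + 1) ×ˢ range (2 * K + 1)).filter (fun q => q.1 + q.2 ≤ 2 * K)).filter
        (fun q => q.1 + q.2 = m) = antidiagonal m := by
      ext q
      simp only [mem_filter, mem_product, mem_range, HasAntidiagonal.mem_antidiagonal]
      omega
    rw [e3, (Commute.all x y).add_pow', smul_sum]
    refine sum_congr rfl fun q hq => ?_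
    rw [HasAntidiagonal.mem_antidiagonal] at hq
    rw [ht, ← Nat.cast_smul_eq_nsmul ℝ, smul_smul]
    congr 1
    have h1 : (m.choose q.1 : ℝ) * (q.1.factorial : ℝ) * (q.2.factorial : ℝ) = (m.factorial : ℝ) := by
      have := Nat.choose_mul_factorial_mul_factorial (n := m) (k := q.1) (by omega)
      have h2 : m - q.1 = q.2 := by omega
      rw [h2] at this
      exact_mod_cast this
    have h3 : (m.factorial : ℝ) ≠ 0 := by positivity
    have h4 : (q.1.factorial : ℝ) ≠ 0 := by positivity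
    have h5 : (q.2.factorial : ℝ) ≠ 0 := by positivity
    rw [one_pow, one_pow, one_pow]
    field_simp
    rw [← h1]
  rw [e1, e2]
  refine Le.subset ?_ fun q _ => ht0 q
  intro q hq
  simp only [mem_filter, mem_product, mem_range] at hq ⊢
  omega

/-- the exponent inside -/
lemma NK_single (K : ℕ) (a b : ℝ) (p : ℕ) :
    (NK K a (single p b : P1)) = NK K 1 (single p (a * b) : P1) := by
  unfold NK
  refine sum_congr rfl fun j _ => ?_
  rw [single_pow, single_pow, smul_single, smul_single, smul_eq_mul, smul_eq_mul, one_pow, mul_pow]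
  congr 1
  ring

/-- the truncated exponential of a weighted sum over primes -/
lemma NK_yb_le (K : ℕ) {a : ℝ} (ha : 0 ≤ a) (b : ℕ → ℝ) (hb : ∀ p, 0 ≤ b p) (I : Finset ℕ) :
    Le (NK K a (yb b I)) (∏ p ∈ I, NK K 1 (single p (a * b p) : P1)) := by
  classical
  induction I using Finset.induction_on with
  | empty =>
    have h1 : NK K a (yb b ∅) = 1 := by
      unfold NK yb
      rw [sum_empty, sum_range_succ', sum_eq_zero]
      · simp
      · intro k _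
        rw [zero_pow (by omega), smul_zero]
    rw [h1, prod_empty]
    exact Le.one
  | insert p I hp ih =>
    have e1 : yb b (insert p I) = single p (b p) + yb b I := by
      unfold yb
      rw [sum_insert hp]
    rw [e1, prod_insert hp]
    have hn : Le (yb b I) (yb b I) := by
      unfold yb
      exact Le.sum fun q _ => Le.single (hb q) le_rfl
    have h1 := NK_add_le K ha (Le.single (n := p) (hb p) le_rfl) hn
    refine h1.trans (Le.mul ?_ ih)
    rw [NK_single]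
    have h2 : Le (single p (a * b p) : P1) (single p (a * b p)) :=
      Le.single (mul_nonneg ha (hb p)) le_rfl
    unfold NK
    exact Le.sum fun j _ => (h2.pow j).smul (by positivity)

lemma NK_single_eq (K : ℕ) (a : ℝ) (p : ℕ) :
    (NK K 1 (single p a : P1)) = ∑ j ∈ range (K + 1), single (p ^ j) (a ^ j / (j.factorial : ℝ)) := by
  unfold NK
  refine sum_congr rfl fun j _ => ?_
  rw [single_pow, smul_single, smul_eq_mul, one_pow]
  congr 1
  ring

/-- local inner product -/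
lemma ip_NK_single (δ : ℝ) {a : ℝ} (K : ℕ) {p : ℕ} (hp : p.Prime) :
    ip δ (NK K 1 (single p a : P1)) (NK K 1 (single p a : P1)) ≤ Real.exp (a ^ 2 * rp δ p ^ 2) := by
  rw [NK_single_eq, ip_sum_left]
  have h1 : ∀ i ∈ range (K + 1), ip δ (single (p ^ i) (a ^ i / (i.factorial : ℝ)))
      (∑ j ∈ range (K + 1), single (p ^ j) (a ^ j / (j.factorial : ℝ))) =
      (a ^ i / (i.factorial : ℝ)) ^ 2 * (rp δ p ^ 2) ^ i := by
    intro i hi
    rw [ip_sum_right, sum_eq_single i]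
    · rw [ip_single, if_pos rfl]
      have h5 := wδ_pow δ hp i
      unfold wδ at h5
      rw [h5]
      ring
    · intro j _ hj
      rw [ip_single, if_neg]
      intro h
      exact hj (Nat.pow_right_injective hp.two_le h).symm
    · intro h
      exact absurd hi h
  rw [sum_congr rfl h1]
  refine le_trans (sum_le_sum fun i _ => ?_)
    (Real.sum_le_exp_of_nonneg (mul_nonneg (sq_nonneg a) (sq_nonneg (rp δ p))) (K + 1))
  have e : (a ^ i / (i.factorial : ℝ)) ^ 2 * (rp δ p ^ 2) ^ i =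
      (a ^ 2 * rp δ p ^ 2) ^ i / ((i.factorial : ℝ) ^ 2) := by
    rw [div_pow, mul_pow, ← pow_mul, ← pow_mul, mul_comm i 2]
    ring
  rw [e]
  have hf : (1:ℝ) ≤ (i.factorial : ℝ) := by exact_mod_cast Nat.one_le_iff_ne_zero.2 (Nat.factorial_ne_zero i)
  refine div_le_div_of_nonneg_left (by positivity) (by positivity) ?_
  nlinarith

/-- one block -/
lemma block {δ : ℝ} (K : ℕ) {a a' : ℝ} (ha : 0 ≤ a) (ha' : 0 ≤ a') (b : ℕ → ℝ) (hb : ∀ p, 0 ≤ b p)
    (I : Finset ℕ) (hI : ∀ p ∈ I, p.Prime) :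
    ip δ (NK K a (x1 I) * NK K a' (yb b I)) (NK K a (x1 I) * NK K a' (yb b I)) ≤
      Real.exp (∑ p ∈ I, (a + a' * b p) ^ 2 * rp δ p ^ 2) := by
  have e1 : x1 I = yb (fun _ => 1) I := rfl
  have h1 := NK_yb_le K ha (fun _ => 1) (fun _ => zero_le_one) I
  have h2 := NK_yb_le K ha' b hb I
  have h3 : Le (NK K a (x1 I) * NK K a' (yb b I)) (∏ p ∈ I, NK (2 * K) 1 (single p (a + a' * b p) : P1)) := by
    rw [e1]
    refine (h1.mul h2).trans ?_
    rw [← prod_mul_distrib]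
    refine Le.prod fun p _ => ?_
    have h4 := NK_mul_le K (x := (single p (a * 1) : P1)) (y := single p (a' * b p))
      (Le.single (by positivity) le_rfl) (Le.single (mul_nonneg ha' (hb p)) le_rfl)
    rw [← single_add] at h4
    simp only [mul_one] at h4 ⊢
    exact h4
  refine (ip_le h3).trans ?_
  have hm : ∀ p ∈ I, NK (2 * K) 1 (single p (a + a' * b p) : P1) ∈ SA1 (M1 {p}) := fun p hp =>
    NK_mem1 (single_mem_SA1 (prime_mem_M1 (hI p hp) (mem_singleton_self p)) _) _ _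
  rw [ip_prodP I hm hm, Real.exp_sum]
  exact prod_le_prod (fun p _ => ip_self_nonneg _ _) fun p hp => ip_NK_single δ _ (hI p hp)

/-- the small primes -/
lemma Az_ip_le {α δ : ℝ} (hδ : 0 ≤ δ) (K z : ℕ) : ip δ (Az α K z) (Az α K z) ≤ ∏ p ∈ S0 z, Ed α δ p := by
  have e1 : ip δ (Az α K z) (Az α K z) = ∏ p ∈ S0 z, ∑ i ∈ range (K + 1), lc α i ^ 2 * (rp δ p ^ 2) ^ i := by
    unfold Az
    rw [ip_prodP (S0 z) (fun p hpp => Lp_mem (mem_S0.mp hpp).2 α K) fun p hpp => Lp_mem (mem_S0.mp hpp).2 α K]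
    refine prod_congr rfl fun p hpp => ?_
    have h := ip_Lp δ α K (mem_S0.mp hpp).2 0
    rw [pow_zero] at h
    have e2 : (single 1 1 : P1) = 1 := rfl
    rw [e2, one_mul] at h
    rw [h]
    refine sum_congr rfl fun i _ => ?_
    rw [add_zero]; ring
  rw [e1]
  exact prod_le_prod (fun p _ => sum_nonneg fun i _ => by positivity) fun p hpp =>
    (Ed_summable (α := α) hδ (mem_S0.mp hpp).2).sum_le_tsum _ fun i _ => by positivity

lemma Ed_anti {α δ δ' : ℝ} (hδ : 0 ≤ δ) (h : δ ≤ δ') {p : ℕ} (hp : p.Prime) : Ed α δ' p ≤ Ed α δ p := by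
  unfold Ed
  refine (Ed_summable (α := α) (hδ.trans h) hp).tsum_le_tsum (fun k => ?_) (Ed_summable (α := α) hδ hp)
  have h8 : rp δ' p ≤ rp δ p := by
    unfold rp
    exact Real.rpow_le_rpow_of_exponent_le (by exact_mod_cast hp.one_lt.le) (by linarith)
  exact mul_le_mul_of_nonneg_left (pow_le_pow_left₀ (sq_nonneg _)
    (pow_le_pow_left₀ (rp_nonneg _ _) h8 2) _) (sq_nonneg _)

/-- the series for the exponent one -/
lemma DD_one {δ : ℝ} (hδ : 0 < δ) : DD 1 δ = ∑' n : ℕ, (n:ℝ) ^ (-1 - 2 * δ) := by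
  unfold DD
  refine tsum_congr fun n => ?_
  unfold g2 wδ
  rcases Nat.eq_zero_or_pos n with h0 | h0
  · subst h0
    have h7 : (0:ℝ) ^ (-1 - 2 * δ) = 0 := Real.zero_rpow (by linarith)
    rw [Nat.cast_zero, h7]
    simp [dv]
  · have hn : (0:ℝ) < n := by exact_mod_cast h0
    have hl : ∀ m : ℕ, lc 1 m = 1 := by
      intro m
      unfold lc
      refine prod_eq_one fun i _ => ?_
      rw [add_comm]
      exact div_self (by positivity)
    have h1 : dv 1 n = 1 := by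
      unfold dv
      rw [if_neg (by omega)]
      unfold Finsupp.prod
      exact prod_eq_one fun p _ => hl _
    rw [h1, one_pow, one_mul, one_div, ← Real.rpow_neg_one (n:ℝ), ← Real.rpow_add hn]
    congr 1
    ring


/-! ## Part C: the change of weight -/

lemma rp_shift {δ H : ℝ} {p : ℕ} (hp : p.Prime) :
    rp ((1 + H / 2) * δ) p ^ 2 = Real.exp (-(H * (δ * Real.log p))) * rp δ p ^ 2 := by
  have hp0 : (0:ℝ) < p := by exact_mod_cast hp.pos
  rw [rp_sq_eq _ hp, rp_sq_eq _ hp, Real.rpow_def_of_pos hp0, Real.rpow_def_of_pos hp0, ← mul_div_assoc,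
    ← Real.exp_add]
  congr 2
  ring

lemma term_le {δ H κ : ℝ} (hδ : 0 < δ) (hH : 0 ≤ H) {p : ℕ} (hp : p.Prime) :
    (κ + 4 * κ * min 1 (H * (δ * Real.log p))) ^ 2 * rp δ p ^ 2 ≤
      κ ^ 2 * rp δ p ^ 2 + 48 * κ ^ 2 * (rp δ p ^ 2 - rp ((1 + H / 2) * δ) p ^ 2) := by
  have hlog : 0 ≤ Real.log p := Real.log_nonneg (by exact_mod_cast hp.one_lt.le)
  have hu : 0 ≤ H * (δ * Real.log p) := by positivity
  have h1 := min_exp hu
  rw [rp_shift hp]
  set b := min 1 (H * (δ * Real.log p)) with hb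
  have hb0 : 0 ≤ b := le_min zero_le_one hu
  have hb1 : b ≤ 1 := min_le_left _ _
  set r := rp δ p ^ 2 with hr
  have hr0 : 0 ≤ r := sq_nonneg _
  have h2 : (κ + 4 * κ * b) ^ 2 ≤ κ ^ 2 + 24 * κ ^ 2 * b := by
    have h3 : b ^ 2 ≤ b := by nlinarith
    nlinarith [mul_nonneg (sq_nonneg κ) (sub_nonneg.2 h3)]
  have h4 : 24 * κ ^ 2 * b * r ≤ 24 * κ ^ 2 * (2 * (1 - Real.exp (-(H * (δ * Real.log p))))) * r := by
    have h5 : 0 ≤ 24 * κ ^ 2 := by positivity
    exact mul_le_mul_of_nonneg_right (mul_le_mul_of_nonneg_left h1 h5) hr0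
  have h6 := mul_le_mul_of_nonneg_right h2 hr0
  nlinarith

/-- the change of weight -/
theorem done : S_STAR := by
  classical
  intro k H hk hH
  refine ⟨Real.exp (1 / 10) * (Real.exp (1 / 5) * (2 + H / 2)) ^ (48 * k ^ 2), by positivity, ?_⟩
  intro M z Rs ε e1 c η d x0 hP hkM y δ J N K K0 hS hδ hδ1 hx
  obtain ⟨b, hbd⟩ : ∃ b : ℕ → ℝ, b = fun p : ℕ => min 1 (H * (δ * Real.log p)) := ⟨_, rfl⟩
  rw [← hbd]
  have hb0 : ∀ p, 0 ≤ b p := by
    intro p
    rw [hbd]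
    refine le_min zero_le_one (mul_nonneg hH (mul_nonneg hδ.le ?_))
    exact Real.log_natCast_nonneg p
  have hk0 : (0:ℝ) ≤ k := Nat.cast_nonneg k
  have hk1 : (1:ℝ) ≤ k := by exact_mod_cast hk
  have hkM' : (k:ℝ) ≤ M := by exact_mod_cast hkM
  obtain ⟨F, hF⟩ : ∃ F : ℕ → P1, ∀ i, F i = NK (20 * (M * RR Rs i)) (k:ℝ) (x1 (IZ z y i)) *
      NK (20 * (M * RR Rs i)) (4 * (k:ℝ)) (yb b (IZ z y i)) := ⟨_, fun _ => rfl⟩
  have hFm : ∀ i, F i ∈ SA1 (M1 (IZ z y i)) := by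
    intro i
    rw [hF]
    refine Subalgebra.mul_mem _ (NK_mem1 (x1_mem (IZ_prime i)) _ _) (NK_mem1 ?_ _ _)
    unfold yb
    exact Subalgebra.sum_mem _ fun p hp => single_mem_SA1 (prime_mem_M1 (IZ_prime i p hp) hp) _
  have hFe : ∏ i ∈ range J, (NK (20 * (M * RR Rs i)) (k:ℝ) (x1 (IZ z y i)) *
      NK (20 * (M * RR Rs i)) (4 * (k:ℝ)) (yb b (IZ z y i))) = ∏ i ∈ range J, F i :=
    prod_congr rfl fun i _ => (hF i).symm
  rw [hFe, ip2 (Az_mem (k:ℝ) K0 z) (prod_mem1 J fun i _ => hFm i) (Az_mem (k:ℝ) K0 z)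
    (prod_mem1 J fun i _ => hFm i), ip_prod δ J (IZ_dj hS) hFm hFm]
  set δ' : ℝ := (1 + H / 2) * δ with hδ'
  have hδδ' : δ ≤ δ' := by
    rw [hδ']
    nlinarith [mul_nonneg hH hδ.le]
  have hδ'0 : 0 < δ' := lt_of_lt_of_le hδ hδδ'
  -- the blocks
  have hblk : ∀ i, ip δ (F i) (F i) ≤ Real.exp ((k:ℝ) ^ 2 * vd δ (IZ z y i) +
      48 * (k:ℝ) ^ 2 * (vd δ (IZ z y i) - vd δ' (IZ z y i))) := by
    intro i
    rw [hF]
    refine (block _ hk0 (by positivity) b hb0 _ (IZ_prime i)).trans (Real.exp_le_exp.mpr ?_)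
    have h1 : ∀ p ∈ IZ z y i, ((k:ℝ) + 4 * k * b p) ^ 2 * rp δ p ^ 2 ≤
        (k:ℝ) ^ 2 * rp δ p ^ 2 + 48 * (k:ℝ) ^ 2 * (rp δ p ^ 2 - rp δ' p ^ 2) := by
      intro p hp
      rw [hbd]
      exact term_le hδ hH (IZ_prime i p hp)
    refine (sum_le_sum h1).trans (le_of_eq ?_)
    unfold vd
    rw [sum_add_distrib, mul_sum, ← mul_sum (f := fun p => rp δ p ^ 2 - rp δ' p ^ 2), sum_sub_distrib]
  have hprod : ∏ i ∈ range J, ip δ (F i) (F i) ≤ Real.exp ((k:ℝ) ^ 2 * Vd δ z y J +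
      48 * (k:ℝ) ^ 2 * (Vd δ z y J - Vd δ' z y J)) := by
    refine (prod_le_prod (fun i _ => ip_self_nonneg _ _) fun i _ => hblk i).trans (le_of_eq ?_)
    rw [← Real.exp_sum]
    congr 1
    unfold Vd
    rw [sum_add_distrib, mul_sum, ← mul_sum (f := fun i => vd δ (IZ z y i) - vd δ' (IZ z y i)),
      sum_sub_distrib]
  -- the exponent one
  have hM1 : (1:ℝ) ≤ M := hk1.trans hkM'
  have c1 := (hP.cm 1 one_pos hM1 y δ hS.zy hδ hx J hS.J1).2
  have hlogy : 0 ≤ Real.log y := by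
    refine Real.log_nonneg ?_
    have h1 : (1000:ℝ) ≤ z := by exact_mod_cast hS.z1
    have := hS.zy
    linarith
  have hx' : x0 ≤ δ' * Real.log y := hx.trans (mul_le_mul_of_nonneg_right hδδ' hlogy)
  have c2 := (hP.cm 1 one_pos hM1 y δ' hS.zy hδ'0 hx' J hS.J1).1
  have hPle : ∏ p ∈ S0 z, Ed 1 δ' p ≤ ∏ p ∈ S0 z, Ed 1 δ p :=
    prod_le_prod (fun p hp => zero_le_one.trans (Ed_ge_one hδ'0.le (mem_S0.mp hp).2)) fun p hp =>
      Ed_anti hδ.le hδδ' (mem_S0.mp hp).2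
  have hP0 : 0 < ∏ p ∈ S0 z, Ed 1 δ p :=
    prod_pos fun p hp => one_pos.trans_le (Ed_ge_one hδ.le (mem_S0.mp hp).2)
  have hDD : DD 1 δ ≤ (2 + H / 2) * DD 1 δ' := by
    rw [DD_one hδ, DD_one hδ'0]
    exact zsum_ratio hδ hH
  have hD : Real.exp (Vd δ z y J - Vd δ' z y J) ≤ Real.exp (1 / 5) * (2 + H / 2) := by
    rw [one_pow, one_mul] at c1 c2
    have a1 : DD 1 δ' ≤ Real.exp ε * ((∏ p ∈ S0 z, Ed 1 δ' p) * Real.exp (Vd δ' z y J)) := by
      have h := mul_le_mul_of_nonneg_left c2 (Real.exp_pos ε).le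
      rwa [← mul_assoc, ← Real.exp_add, add_neg_cancel, Real.exp_zero, one_mul] at h
    have a2 : (∏ p ∈ S0 z, Ed 1 δ' p) * Real.exp (Vd δ' z y J) ≤
        (∏ p ∈ S0 z, Ed 1 δ p) * Real.exp (Vd δ' z y J) :=
      mul_le_mul_of_nonneg_right hPle (Real.exp_pos _).le
    have a3 : (∏ p ∈ S0 z, Ed 1 δ p) * Real.exp (Vd δ z y J) ≤
        Real.exp ε * ((2 + H / 2) * (Real.exp ε * ((∏ p ∈ S0 z, Ed 1 δ p) * Real.exp (Vd δ' z y J)))) := by
      refine c1.trans (mul_le_mul_of_nonneg_left (hDD.trans (mul_le_mul_of_nonneg_left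
        (a1.trans (mul_le_mul_of_nonneg_left a2 (Real.exp_pos ε).le)) (by positivity))) (Real.exp_pos ε).le)
    have a4 : Real.exp (Vd δ z y J) ≤ Real.exp ε * Real.exp ε * (2 + H / 2) * Real.exp (Vd δ' z y J) := by
      refine le_of_mul_le_mul_left (a3.trans (le_of_eq ?_)) hP0
      ring
    rw [Real.exp_sub, div_le_iff₀ (Real.exp_pos _)]
    refine a4.trans (mul_le_mul_of_nonneg_right (mul_le_mul_of_nonneg_right ?_ (by positivity))
      (Real.exp_pos _).le)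
    rw [← Real.exp_add]
    refine Real.exp_le_exp.mpr ?_
    have := hP.e01
    linarith
  -- the exponent `k`
  have c3 := (hP.cm k (by linarith) hkM' y δ hS.zy hδ hx J hS.J1).2
  have hA := Az_ip_le (α := (k:ℝ)) hδ.le K0 z
  have hDDk : 0 ≤ DD (k:ℝ) δ := zero_le_one.trans (DD_ge_one (by linarith) hδ)
  have hPk0 : 0 ≤ ∏ p ∈ S0 z, Ed (k:ℝ) δ p :=
    prod_nonneg fun p hp => zero_le_one.trans (Ed_ge_one hδ.le (mem_S0.mp hp).2)
  have hexp : Real.exp (48 * (k:ℝ) ^ 2 * (Vd δ z y J - Vd δ' z y J)) =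
      Real.exp (Vd δ z y J - Vd δ' z y J) ^ (48 * k ^ 2) := by
    rw [← Real.exp_nat_mul]
    push_cast
    rfl
  calc ip δ (Az (k:ℝ) K0 z) (Az (k:ℝ) K0 z) * ∏ i ∈ range J, ip δ (F i) (F i)
      ≤ (∏ p ∈ S0 z, Ed (k:ℝ) δ p) * Real.exp ((k:ℝ) ^ 2 * Vd δ z y J +
        48 * (k:ℝ) ^ 2 * (Vd δ z y J - Vd δ' z y J)) :=
        mul_le_mul hA hprod (prod_nonneg fun i _ => ip_self_nonneg _ _) hPk0
    _ = ((∏ p ∈ S0 z, Ed (k:ℝ) δ p) * Real.exp ((k:ℝ) ^ 2 * Vd δ z y J)) *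
        Real.exp (Vd δ z y J - Vd δ' z y J) ^ (48 * k ^ 2) := by
        rw [Real.exp_add, hexp, mul_assoc]
    _ ≤ (Real.exp ε * DD (k:ℝ) δ) * (Real.exp (1 / 5) * (2 + H / 2)) ^ (48 * k ^ 2) :=
        mul_le_mul c3 (pow_le_pow_left₀ (Real.exp_pos _).le hD _) (by positivity)
          (mul_nonneg (Real.exp_pos _).le hDDk)
    _ ≤ (Real.exp (1 / 10) * DD (k:ℝ) δ) * (Real.exp (1 / 5) * (2 + H / 2)) ^ (48 * k ^ 2) := by
        refine mul_le_mul_of_nonneg_right (mul_le_mul_of_nonneg_right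
          (Real.exp_le_exp.mpr hP.e01) hDDk) (by positivity)
    _ = Real.exp (1 / 10) * (Real.exp (1 / 5) * (2 + H / 2)) ^ (48 * k ^ 2) * DD (k:ℝ) δ := by
        ring

end Pool.Agent.Y971.SH
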